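import Mathlib
import Pool.Agent.Work.MP_8ad3a8_al.Bundle
import Pool.Agent.Work.MP_8ad3a8_al.Cq
import Pool.Agent.Work.MP_8ad3a8_al.Example2

set_option autoImplicit false

/-!
# The determinant of the matrix of trihedron coefficients is q-round (MP_8ad3a8_al, Q1)

`C` is a Cartan matrix of finite type, the base field `K` is `ℂ(q)`.
`c1, c2, c3` and `c1', c2', c3'` are irreducible representations with their canonical bases,
`F` and `G` are the dual canonical bases of the spaces of invariants of `V1 ⊗ V2 ⊗ V3` and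
`V3' ⊗ V2' ⊗ V1'`, and `D1, D2, D3` the identifications of `V1', V2', V3'` with the dual
representations.

Part 1: the determinant of the trihedron pairing is q-round.

Part 2: when duals are taken through the inverse antipode (equivalently, for the opposite coproduct,
after flipping the order of the tensor factors) the determinant is q-round up to the explicit power
`q ^ (2 m ∑ d_k κ_k)`, where `m` is the dimension of the space of invariants and
`λ₁ + λ₂ + λ₃ = ∑ κ_k α_k`; it is q-round only when `m = 0` or `λ₁ = λ₂ = λ₃ = 0`.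
-/

namespace Pool.Agent.Results.MP_8ad3a8_al.TrihedronDetQRound

open Pool.Agent.Work.MP_8ad3a8_al TensorProduct

theorem result {K : Type} [Field K] (q : K) (bar : K ≃+* K) (hK : IsCq q bar)
    {I : Type} [Fintype I] [DecidableEq I] (C : Cartan I) {l1 l2 l3 l1' l2' l3' : I → ℕ}
    {V1 : Type} [AddCommGroup V1] [Module K V1] {J1 : Type} [Fintype J1] [DecidableEq J1]
    {V2 : Type} [AddCommGroup V2] [Module K V2] {J2 : Type} [Fintype J2] [DecidableEq J2]
    {V3 : Type} [AddCommGroup V3] [Module K V3] {J3 : Type} [Fintype J3] [DecidableEq J3]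
    {V1' : Type} [AddCommGroup V1'] [Module K V1'] {J1' : Type} [Fintype J1'] [DecidableEq J1']
    {V2' : Type} [AddCommGroup V2'] [Module K V2'] {J2' : Type} [Fintype J2'] [DecidableEq J2']
    {V3' : Type} [AddCommGroup V3'] [Module K V3'] {J3' : Type} [Fintype J3'] [DecidableEq J3']
    (c1 : Canon C q bar l1 V1 J1) (c2 : Canon C q bar l2 V2 J2) (c3 : Canon C q bar l3 V3 J3)
    (c1' : Canon C q bar l1' V1' J1') (c2' : Canon C q bar l2' V2' J2')
    (c3' : Canon C q bar l3' V3' J3')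
    (D1 : V1' ≃ₗ[K] Module.Dual K V1) (D2 : V2' ≃ₗ[K] Module.Dual K V2)
    (D3 : V3' ≃ₗ[K] Module.Dual K V3) {m : ℕ}
    (F : InvBasis c1 c2 c3 m) (G : InvBasis c3' c2' c1' m) :
    (IsDuality c1' c1 D1 → IsDuality c2' c2 D2 → IsDuality c3' c3 D3 →
      IsQRound q (thetaDet D1 D2 D3 F.f G.f)) ∧
    (IsDualityInv c1' c1 D1 → IsDualityInv c2' c2 D2 → IsDualityInv c3' c3 D3 →
      (∃ κ : I → ℕ, (m ≠ 0 → ∀ i, ∑ k, C.a i k * (κ k : ℤ) = l1 i + l2 i + l3 i) ∧
        IsQRound q (q ^ (2 * m * ∑ k, C.d k * (κ k : ℤ)) * thetaDet D1 D2 D3 F.f G.f)) ∧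
      (IsQRound q (thetaDet D1 D2 D3 F.f G.f) ↔
        m = 0 ∨ ∀ i, l1 i = 0 ∧ l2 i = 0 ∧ l3 i = 0)) := by
  have hd : thetaDet D1 D2 D3 F.f G.f = Matrix.det (Matrix.of fun i j =>
      pairing D1 D2 D3 (G.bas i).1 (F.bas j).1) := by
    unfold thetaDet
    simp only [InvBasis.bas_apply]
  have hF : ∀ j, IsDualCanon F.t (F.bas j).1 := fun j => by
    rw [InvBasis.bas_apply]; exact F.dual j
  have hG : ∀ j, IsDualCanon G.t (G.bas j).1 := fun j => by
    rw [InvBasis.bas_apply]; exact G.dual j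
  have hch := hK.charZero
  obtain ⟨sig, hs, hss⟩ := hK.exists_sig
  rw [hd]
  exact ⟨fun hD1 hD2 hD3 => det_round hK.tr hK.bar_bar hK.bar_q sig hs hss
      F.t G.t hD1 hD2 hD3 F.bas hF G.bas hG,
    fun hD1 hD2 hD3 => det_op hK.tr hK.bar_bar hK.bar_q sig hs hss
      F.t G.t hD1 hD2 hD3 F.bas hF G.bas hG⟩

end Pool.Agent.Results.MP_8ad3a8_al.TrihedronDetQRound
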